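import Mathlib
import Pool.Agent.Helper36.Indec.PermDefs
import Pool.Agent.Helper36.Indec.Final

set_option autoImplicit false

namespace Pool.Agent.Results.MP_2d4b98_co.AtLeastNMinusOne

open Pool.Agent.Helper36.Indec

/-- If the numbers of sum indecomposable permutations of length `n` in a permutation class `C`
are unbounded, then for every `n ≥ 1` the class contains at least `n - 1` sum indecomposable
permutations of length `n`.  The class is not required to be sum closed. -/
theorem result (C : ∀ n : ℕ, Set (Equiv.Perm (Fin n))) (hC : IsClass C)
    (hunb : ∀ B : ℕ, ∃ n : ℕ, B < (ind C n).ncard) :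
    ∀ n : ℕ, 1 ≤ n → n - 1 ≤ (ind C n).ncard :=
  ind_lower C hC hunb

end Pool.Agent.Results.MP_2d4b98_co.AtLeastNMinusOne
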